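import Pool.Agent.W_52423f_h21.One

/-! At most one class of exceptional planes: pairs of vectors. -/

set_option autoImplicit false

namespace Pool.Agent.W_52423f_h21

open Module

section

variable {Ω D V T : Type*} [Field Ω] [Algebra ℚ Ω] [DivisionRing D] [Algebra ℚ D]
  [FiniteDimensional ℚ D] [AddCommGroup V] [Module D V] [AddCommGroup T] [Module Ω T]
  [Module D T] [SMulCommClass Ω D T]

theorem charZ (R : Type*) [DivisionRing R] [Algebra ℚ R] : CharZero R :=
  algebraRat.charZero R

/-- The multiples by a basis of `D` of a vector with a full line are independent. -/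
theorem good_basis (μ : T)
    (h : finrank Ω (Submodule.span Ω (Set.range fun a : D => a • μ)) = finrank ℚ D) :
    LinearIndependent Ω fun j => finBasis ℚ D j • μ := by
  have hD := charZ D
  have hΩ := charZ Ω
  rw [linearIndependent_iff_card_eq_finrank_span, Fintype.card_fin]
  have h1 : Submodule.span Ω (Set.range fun a : D => a • μ) =
      Submodule.span Ω (Set.range fun j => finBasis ℚ D j • μ) := by
    apply le_antisymm
    · rw [Submodule.span_le]
      rintro _ ⟨a, rfl⟩
      have h2 : a • μ = ∑ j, ((finBasis ℚ D).repr a j : Ω) • finBasis ℚ D j • μ := by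
        conv_lhs => rw [← (finBasis ℚ D).sum_repr a, Finset.sum_smul]
        refine Finset.sum_congr rfl fun j _ => ?_
        rw [Algebra.smul_def, mul_smul, eq_ratCast]
        exact map_ratCast_smul (AddMonoidHom.id T) D Ω _ _
      show a • μ ∈ _
      rw [h2]
      exact Submodule.sum_mem _ fun j _ => Submodule.smul_mem _ _ (Submodule.subset_span ⟨j, rfl⟩)
    · rw [Submodule.span_le]
      rintro _ ⟨j, rfl⟩
      exact Submodule.subset_span ⟨_, rfl⟩
  show finrank ℚ D = finrank Ω (Submodule.span Ω (Set.range fun j => finBasis ℚ D j • μ))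
  rw [← h1, h]

/-- Two vectors which are independent over `ℤ`, with dependent logarithms. -/
theorem ratio (log : V →ₗ[D] T) (h0 : ∀ x : V, log x = 0 → x = 0) (v : Fin 2 → V)
    (hv : LinearIndependent ℤ v) (hd : ¬ LinearIndependent Ω fun i => log (v i)) :
    ∃ c : Ω, log (v 0) = c • log (v 1) ∧ ∀ q : ℚ, c ≠ q := by
  have hD := charZ D
  have hΩ := charZ Ω
  have hv1 : v 1 ≠ 0 := hv.ne_zero 1
  have hl1 : log (v 1) ≠ 0 := fun h => hv1 (h0 _ h)
  have hd2 : ¬ LinearIndependent Ω ![log (v 1), log (v 0)] := by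
    intro h
    apply hd
    have h2 := (LinearIndependent.pair_symm_iff.1 h)
    have h3 : (fun i => log (v i)) = ![log (v 0), log (v 1)] := by
      funext i
      fin_cases i <;> rfl
    rw [h3]
    exact h2
  rw [LinearIndependent.pair_iff' hl1] at hd2
  push Not at hd2
  obtain ⟨c, hc⟩ := hd2
  refine ⟨c, hc.symm, ?_⟩
  rintro q rfl
  have h1 : log (v 0) = (q : D) • log (v 1) := by
    rw [← hc]
    exact map_ratCast_smul (AddMonoidHom.id T) Ω D q _
  have h2 : log ((q.den : ℤ) • v 0 - q.num • v 1) = 0 := by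
    rw [map_sub, map_zsmul, map_zsmul, h1, sub_eq_zero, ← Int.cast_smul_eq_zsmul D,
      ← Int.cast_smul_eq_zsmul D, ← mul_smul]
    congr 1
    have h3 : (q.den : ℚ) * q = q.num := by
      rw [mul_comm]
      exact Rat.mul_den_eq_num q
    have h4 := congrArg (Rat.cast (K := D)) h3
    push_cast at h4 ⊢
    exact h4
  have h3 := h0 _ h2
  have h4 := Fintype.linearIndependent_iff.1 hv ![(q.den : ℤ), -q.num] (by
    rw [Fin.sum_univ_two]
    simpa [sub_eq_add_neg] using h3) 0
  have h5 : (q.den : ℤ) = 0 := h4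
  exact q.den_nz (by exact_mod_cast h5)

/-- At most one class: if all lines over `D` are good, and the logarithms of `v 0`, `v 1`, and
those of `w 0`, `w 1`, are dependent over `Ω`, for `w i` in the `D`-span of the `v i`, then the
rational planes of `w` and `v` are proportional over `D`, unless the ratio of the logarithms of `v`
is a quadratic irrational. -/
theorem one_class (log : V →ₗ[D] T)
    (hline : ∀ x : V, x ≠ 0 →
      finrank Ω (Submodule.span Ω (Set.range fun a : D => a • log x)) = finrank ℚ D)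
    (v w : Fin 2 → V) (hv : LinearIndependent ℤ v) (hw : LinearIndependent ℤ w)
    (hwv : ∀ i, w i ∈ Submodule.span D (Set.range v))
    (hvd : ¬ LinearIndependent Ω fun i => log (v i))
    (hwd : ¬ LinearIndependent Ω fun i => log (w i)) :
    (∃ (k : D) (g : Fin 2 → Fin 2 → ℚ), ∀ i, w i = k • ∑ j, (g i j : D) • v j) ∨
      ∃ c : Ω, (∃ α β γ : ℚ, α ≠ 0 ∧ (α : Ω) * c ^ 2 + β * c + γ = 0) ∧ (∀ q : ℚ, c ≠ q) ∧
        log (v 0) = c • log (v 1) := by
  have hD := charZ D
  have hΩ := charZ Ω
  have h0 : ∀ x : V, log x = 0 → x = 0 := by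
    intro x hx
    by_contra hx0
    have h1 := hline x hx0
    have h2 := good_basis (log x) h1
    have h3 : 0 < finrank ℚ D := finrank_pos
    exact h2.ne_zero ⟨0, h3⟩ (by rw [hx, smul_zero])
  obtain ⟨c, hc, hcq⟩ := ratio log h0 v hv hvd
  obtain ⟨c', hc', hcq'⟩ := ratio log h0 w hw hwd
  by_cases hquad : ∀ α β γ : ℚ, (α : Ω) * c ^ 2 + β * c + γ = 0 → α = 0 ∧ β = 0 ∧ γ = 0
  · left
    have hwv' : ∀ i, ∃ a b : D, a • v 0 + b • v 1 = w i := by
      intro i
      obtain ⟨f, hf⟩ := (Submodule.mem_span_range_iff_exists_fun D).1 (hwv i)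
      exact ⟨f 0, f 1, by rw [← hf, Fin.sum_univ_two]⟩
    choose a b hab using hwv'
    obtain ⟨α, β, γ, δ, k, e1, e2, e3, e4⟩ := one (Ω := Ω) (fun j => finBasis ℚ D j) log (v 0) (v 1)
      (fun x j => (finBasis ℚ D).repr x j) (fun x => by
        conv_lhs => rw [← (finBasis ℚ D).sum_repr x]
        refine Finset.sum_congr rfl fun j _ => ?_
        rw [Algebra.smul_def, eq_ratCast])
      (good_basis _ (hline _ (hv.ne_zero 1))) c c' hquad hcq' hc (a 0) (b 0) (a 1) (b 1)
      (by rw [hab, hab, hc'])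
    refine ⟨k, ![![α, β], ![γ, δ]], fun i => ?_⟩
    rw [← hab i, Fin.sum_univ_two, smul_add, ← mul_smul, ← mul_smul]
    fin_cases i
    · simp [e1, e2]
    · simp [e3, e4]
  · right
    push Not at hquad
    obtain ⟨α, β, γ, h1, h2⟩ := hquad
    refine ⟨c, ⟨α, β, γ, ?_, h1⟩, hcq, hc⟩
    rintro rfl
    have h3 : (β : Ω) * c + γ = 0 := by
      rw [← h1]
      simp
    by_cases hβ : β = 0
    · subst hβ
      have h4 : (γ : Ω) = 0 := by simpa using h3
      exact h2 rfl rfl (by exact_mod_cast h4)
    · refine hcq (-γ / β) ?_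
      have h4 : (β : Ω) ≠ 0 := by exact_mod_cast hβ
      push_cast
      rw [eq_div_iff h4]
      linear_combination h3

end

end Pool.Agent.W_52423f_h21
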