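import Pool.Agent.W_52423f_h69.Fin
import Pool.Agent.W_52423f_h21.Pair

/-! At most one class of exceptional planes: closures. -/

set_option autoImplicit false
set_option linter.unusedSectionVars false

namespace Pool.Agent.W_52423f_h21

open Module TensorProduct Pool.Agent.W_52423f_h69

section

variable (p : ℕ) [Fact p.Prime] (D : Type*) [DivisionRing D] [Algebra ℚ D]
    [FiniteDimensional ℚ D] (V : Type*)
    [AddCommGroup V] [Module D V] (T : Type*) [AddCommGroup T] [Module ℚ_[p] T] [Module ℤ_[p] T]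
    [IsScalarTower ℤ_[p] ℚ_[p] T] [Module D T] [SMulCommClass ℚ_[p] D T] [TopologicalSpace T]
    [IsTopologicalAddGroup T] [ContinuousSMul ℚ_[p] T] [T2Space T] (log : V →ₗ[D] T)

/-- If the closure of the logarithms of the group generated by the `v i` is not of full rank, the
logarithms are dependent. -/
theorem dep_of_closure {m : ℕ} (v : Fin m → V)
    (h : ¬ ∃ H : Submodule ℤ_[p] T, (H : Set T) = closure (log '' (AddSubgroup.closure
        (Set.range v) : Set V)) ∧ Module.Finite ℤ_[p] H ∧ Module.Free ℤ_[p] H ∧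
          finrank ℤ_[p] H = m) : ¬ LinearIndependent ℚ_[p] fun i => log (v i) := by
  intro hli
  apply h
  obtain ⟨hfin, hfree, hrk⟩ := finrank_zp (p := p) (fun i => log (v i))
  refine ⟨Submodule.span ℤ_[p] (Set.range fun i => log (v i)), ?_, hfin, hfree, ?_⟩
  · rw [closure_zspan]
    congr 1
    have h2 : (AddSubgroup.closure (Set.range v) : Set V) = Submodule.span ℤ (Set.range v) := by
      rw [← Submodule.span_int_eq_addSubgroupClosure]
      rfl
    show _ = log '' (AddSubgroup.closure (Set.range v) : Set V)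
    rw [h2]
    have h3 : (Submodule.span ℤ (Set.range v)).map (log.restrictScalars ℤ) =
        Submodule.span ℤ (Set.range fun i => log (v i)) := by
      rw [Submodule.map_span]
      congr 1
      ext y
      simp
    rw [← h3]
    rfl
  · rw [hrk, finrank_span_eq_card hli, Fintype.card_fin]

/-- At most one class, for closures. -/
theorem one_class_closure
    (hline : ∀ x : V, x ≠ 0 →
      finrank ℚ_[p] (Submodule.span ℚ_[p] (Set.range fun a : D => a • log x)) = finrank ℚ D)
    (v w : Fin 2 → V) (hv : LinearIndependent ℤ v) (hw : LinearIndependent ℤ w)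
    (hwv : ∀ i, w i ∈ Submodule.span D (Set.range v))
    (hvd : ¬ ∃ H : Submodule ℤ_[p] T, (H : Set T) = closure (log '' (AddSubgroup.closure
        (Set.range v) : Set V)) ∧ Module.Finite ℤ_[p] H ∧ Module.Free ℤ_[p] H ∧
          finrank ℤ_[p] H = 2)
    (hwd : ¬ ∃ H : Submodule ℤ_[p] T, (H : Set T) = closure (log '' (AddSubgroup.closure
        (Set.range w) : Set V)) ∧ Module.Finite ℤ_[p] H ∧ Module.Free ℤ_[p] H ∧
          finrank ℤ_[p] H = 2) :
    (∃ (k : D) (g : Fin 2 → Fin 2 → ℚ), ∀ i, w i = k • ∑ j, (g i j : D) • v j) ∨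
      ∃ c : ℚ_[p], (∃ α β γ : ℚ, α ≠ 0 ∧ (α : ℚ_[p]) * c ^ 2 + β * c + γ = 0) ∧
        (∀ q : ℚ, c ≠ q) ∧ log (v 0) = c • log (v 1) :=
  one_class log hline v w hv hw hwv (dep_of_closure p D V T log v hvd)
    (dep_of_closure p D V T log w hwd)

/-- Under the `p`-adic analytic subgroup theorem there is no quadratic ratio. -/
theorem one_class_indep
    (hline : ∀ x : V, x ≠ 0 →
      finrank ℚ_[p] (Submodule.span ℚ_[p] (Set.range fun a : D => a • log x)) = finrank ℚ D)
    (hindep : ∀ (n : ℕ) (v : Fin n → V), LinearIndependent ℤ v →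
        ∀ a : Fin n → AlgebraicClosure ℚ_[p], (∀ i, IsAlgebraic ℚ (a i)) →
          ∑ i, a i ⊗ₜ[ℚ_[p]] log (v i) = 0 → a = 0)
    (v w : Fin 2 → V) (hv : LinearIndependent ℤ v) (hw : LinearIndependent ℤ w)
    (hwv : ∀ i, w i ∈ Submodule.span D (Set.range v))
    (hvd : ¬ ∃ H : Submodule ℤ_[p] T, (H : Set T) = closure (log '' (AddSubgroup.closure
        (Set.range v) : Set V)) ∧ Module.Finite ℤ_[p] H ∧ Module.Free ℤ_[p] H ∧
          finrank ℤ_[p] H = 2)
    (hwd : ¬ ∃ H : Submodule ℤ_[p] T, (H : Set T) = closure (log '' (AddSubgroup.closure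
        (Set.range w) : Set V)) ∧ Module.Finite ℤ_[p] H ∧ Module.Free ℤ_[p] H ∧
          finrank ℤ_[p] H = 2) :
    ∃ (k : D) (g : Fin 2 → Fin 2 → ℚ), ∀ i, w i = k • ∑ j, (g i j : D) • v j := by
  rcases one_class_closure p D V T log hline v w hv hw hwv hvd hwd with h | h
  · exact h
  exfalso
  obtain ⟨c, ⟨α, β, γ, hα, hc⟩, -, hlog⟩ := h
  have halg : IsAlgebraic ℚ c := by
    refine ⟨Polynomial.C α * Polynomial.X ^ 2 + Polynomial.C β * Polynomial.X + Polynomial.C γ,
      ?_, ?_⟩
    · intro h0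
      have h1 := congrArg (fun q => Polynomial.coeff q 2) h0
      simp at h1
      exact hα h1
    · simpa using hc
  have h1 := hindep 2 v hv ![1, -algebraMap ℚ_[p] (AlgebraicClosure ℚ_[p]) c] ?_ ?_
  · have h2 := congrFun h1 0
    simp at h2
  · intro i
    fin_cases i
    · exact isAlgebraic_one
    · exact (halg.algebraMap).neg
  · rw [Fin.sum_univ_two]
    simp only [Matrix.cons_val_zero, Matrix.cons_val_one]
    have h3 : (algebraMap ℚ_[p] (AlgebraicClosure ℚ_[p]) c) ⊗ₜ[ℚ_[p]] log (v 1) =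
        (1 : AlgebraicClosure ℚ_[p]) ⊗ₜ[ℚ_[p]] (c • log (v 1)) := by
      rw [Algebra.algebraMap_eq_smul_one, TensorProduct.smul_tmul]
    rw [hlog, TensorProduct.neg_tmul, h3, add_neg_cancel]

end

end Pool.Agent.W_52423f_h21
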