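import Pool.Agent.W_52423f_h53.Cnt

/-! Counting tuples of integer vectors with dependent images: a variant of `bad_ncard`. -/

set_option autoImplicit false
set_option linter.unusedSectionVars false

namespace Pool.Agent.W_52423f_h21

open Module Pool.Agent.W_52423f_h53

section Count

variable {Ω T : Type*} [Field Ω] [AddCommGroup T] [Module Ω T] [Module ℚ T]
  [Algebra ℚ Ω] [IsScalarTower ℚ Ω T]

/-- The number of the tuples with dependent images, if the rational subspaces of the combinations with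
values in a space of dimension less than `m` have dimension at most `w`. -/
theorem bad_ncard_lin {R : ℕ} (y : Fin R → T) (w B : ℕ) :
    ∀ m : ℕ, (∀ S : Submodule Ω T, FiniteDimensional Ω S → finrank Ω S + 1 ≤ m →
      finrank ℚ (Wsp y S) ≤ w) → {x : Fin m → Fin R → ℤ | (∀ i j, |x i j| ≤ (B : ℤ)) ∧
      ¬ LinearIndependent Ω (fun i => ∑ j, x i j • y j)}.ncard ≤
        m * (2 * B + 1) ^ ((m - 1) * R + w) := by
  classical
  intro m
  let q := 2 * B + 1
  have hbox : ∀ k : ℕ, {x : Fin k → Fin R → ℤ | ∀ i j, |x i j| ≤ (B : ℤ)}.Finite ∧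
      {x : Fin k → Fin R → ℤ | ∀ i j, |x i j| ≤ (B : ℤ)}.ncard = q ^ (R * k) := by
    intro k
    have h1 : {x : Fin k → Fin R → ℤ | ∀ i j, |x i j| ≤ (B : ℤ)} =
        ((Fintype.piFinset fun _ : Fin k => Fintype.piFinset fun _ : Fin R =>
          Finset.Icc (-(B : ℤ)) B : Finset (Fin k → Fin R → ℤ)) : Set (Fin k → Fin R → ℤ)) := by
      ext x
      rw [Set.mem_setOf_eq, Finset.mem_coe, Fintype.mem_piFinset]
      refine forall_congr' fun i => ?_
      rw [Fintype.mem_piFinset]
      refine forall_congr' fun j => ?_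
      rw [Finset.mem_Icc, ← abs_le]
    rw [h1]
    refine ⟨Finset.finite_toSet _, ?_⟩
    rw [Set.ncard_coe_finset, Fintype.card_piFinset, Finset.prod_const, Fintype.card_piFinset,
      Finset.prod_const, Int.card_Icc, Finset.card_univ, Finset.card_univ, Fintype.card_fin,
      Fintype.card_fin, ← pow_mul]
    congr 1
    show ((B : ℤ) + 1 - -(B : ℤ)).toNat = 2 * B + 1
    omega
  induction m with
  | zero =>
    intro _
    have h1 : {x : Fin 0 → Fin R → ℤ | (∀ i j, |x i j| ≤ (B : ℤ)) ∧
      ¬ LinearIndependent Ω (fun i => ∑ j, x i j • y j)} = ∅ := by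
      ext x
      simp only [Set.mem_setOf_eq, Set.mem_empty_iff_false, iff_false, not_and, not_not]
      intro _
      exact linearIndependent_empty_type
    rw [h1, Set.ncard_empty]
    exact Nat.zero_le _
  | succ k ih =>
    intro hW
    have ih := ih fun S hS hr => hW S hS (by omega)
    -- the two parts
    let Bk : Set (Fin k → Fin R → ℤ) := {x | (∀ i j, |x i j| ≤ (B : ℤ)) ∧
      ¬ LinearIndependent Ω (fun i => ∑ j, x i j • y j)}
    let Ck : Set (Fin k → Fin R → ℤ) := {x | ∀ i j, |x i j| ≤ (B : ℤ)}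
    let C1 : Set (Fin R → ℤ) := {z | ∀ j, |z j| ≤ (B : ℤ)}
    let D : (Fin k → Fin R → ℤ) → Set (Fin R → ℤ) := fun x =>
      {z | (∀ j, |z j| ≤ (B : ℤ)) ∧ (fun j => (z j : ℚ)) ∈
        Wsp y (Submodule.span Ω (Set.range fun i => ∑ j, x i j • y j))}
    have hC1 : C1.Finite ∧ C1.ncard = q ^ R := by
      have h1 : C1 = ((Fintype.piFinset fun _ : Fin R =>
          Finset.Icc (-(B : ℤ)) B : Finset (Fin R → ℤ)) : Set (Fin R → ℤ)) := by
        ext x
        show (∀ j, |x j| ≤ (B : ℤ)) ↔ _
        rw [Finset.mem_coe, Fintype.mem_piFinset]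
        refine forall_congr' fun j => ?_
        rw [Finset.mem_Icc, ← abs_le]
      rw [h1]
      refine ⟨Finset.finite_toSet _, ?_⟩
      rw [Set.ncard_coe_finset, Fintype.card_piFinset, Finset.prod_const, Int.card_Icc,
        Finset.card_univ, Fintype.card_fin]
      congr 1
      show ((B : ℤ) + 1 - -(B : ℤ)).toNat = 2 * B + 1
      omega
    have hCk := hbox k
    have hBk : Bk.Finite := hCk.1.subset fun x hx => hx.1
    have hD : ∀ x, (D x).Finite ∧ (D x).ncard ≤ q ^ w := by
      intro x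
      refine ⟨hC1.1.subset fun z hz => hz.1, (box_ncard B _).trans ?_⟩
      refine Nat.pow_le_pow_right (by omega) ?_
      refine hW _ (FiniteDimensional.span_of_finite Ω (Set.finite_range _)) ?_
      have := finrank_range_le_card (R := Ω) (fun i : Fin k => ∑ j, x i j • y j)
      rw [Fintype.card_fin] at this
      exact Nat.succ_le_succ this
    let e : (Fin R → ℤ) × (Fin k → Fin R → ℤ) → (Fin (k + 1) → Fin R → ℤ) := fun a =>
      Fin.cons a.1 a.2
    have hsub : {x : Fin (k + 1) → Fin R → ℤ | (∀ i j, |x i j| ≤ (B : ℤ)) ∧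
        ¬ LinearIndependent Ω (fun i => ∑ j, x i j • y j)} ⊆
        e '' (C1 ×ˢ Bk) ∪ ⋃ x ∈ hCk.1.toFinset, e '' (D x ×ˢ {x}) := by
      rintro x ⟨hx, hx2⟩
      have hxe : e (x 0, fun i => x i.succ) = x := Fin.cons_self_tail x
      have hx3 : (fun i => ∑ j, x i j • y j) =
          (Fin.cons (∑ j, x 0 j • y j) (fun i : Fin k => ∑ j, x i.succ j • y j) :
            Fin (k + 1) → T) := by
        funext i
        refine Fin.cases ?_ (fun i => ?_) i
        · rw [Fin.cons_zero]
        · rw [Fin.cons_succ]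
      rw [hx3, linearIndependent_fin_cons, not_and_or, not_not] at hx2
      rcases hx2 with h1 | h1
      · left
        refine ⟨(x 0, fun i => x i.succ), ⟨fun j => hx 0 j, fun i j => hx i.succ j, h1⟩, hxe⟩
      · right
        rw [Set.mem_iUnion₂]
        refine ⟨fun i => x i.succ, ?_, (x 0, fun i => x i.succ), ⟨⟨fun j => hx 0 j, ?_⟩, rfl⟩, hxe⟩
        · rw [Set.Finite.mem_toFinset]
          exact fun i j => hx i.succ j
        · rw [mem_Wsp]
          convert h1 using 2 with j
          rw [Int.cast_smul_eq_zsmul]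
    have hfin2 : ∀ x, (e '' (D x ×ˢ {x})).Finite ∧ (e '' (D x ×ˢ {x})).ncard ≤ q ^ w := by
      intro x
      have h1 : (D x ×ˢ ({x} : Set (Fin k → Fin R → ℤ))).Finite :=
        (hD x).1.prod (Set.finite_singleton x)
      refine ⟨h1.image e, (Set.ncard_image_le h1).trans ?_⟩
      rw [Set.ncard_prod, Set.ncard_singleton, mul_one]
      exact (hD x).2
    have hfinU : (⋃ x ∈ hCk.1.toFinset, e '' (D x ×ˢ {x})).Finite :=
      Set.Finite.biUnion (Finset.finite_toSet _) fun x _ => (hfin2 x).1
    have hfin1 : (e '' (C1 ×ˢ Bk)).Finite := (hC1.1.prod hBk).image e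
    have hU : (⋃ x ∈ hCk.1.toFinset, e '' (D x ×ˢ {x})).ncard ≤ q ^ (R * k) * q ^ w := by
      refine (Finset.set_ncard_biUnion_le _ _).trans ?_
      refine (Finset.sum_le_card_nsmul _ _ (q ^ w) fun x _ => (hfin2 x).2).trans ?_
      rw [smul_eq_mul, ← Set.ncard_eq_toFinset_card _ hCk.1, hCk.2]
    have hA : (e '' (C1 ×ˢ Bk)).ncard ≤ q ^ R * (k * q ^ ((k - 1) * R + w)) := by
      refine (Set.ncard_image_le (hC1.1.prod hBk)).trans ?_
      rw [Set.ncard_prod, hC1.2]
      exact Nat.mul_le_mul_left _ ih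
    refine (Set.ncard_le_ncard hsub (hfin1.union hfinU)).trans ?_
    refine (Set.ncard_union_le _ _).trans ?_
    refine (Nat.add_le_add hA hU).trans ?_
    have hq : 1 ≤ q := by omega
    have h2 : q ^ R * (k * q ^ ((k - 1) * R + w)) ≤ k * q ^ (k * R + w) := by
      rcases Nat.eq_zero_or_pos k with h0 | h0
      · subst h0
        simp
      · obtain ⟨l, rfl⟩ : ∃ l, k = l + 1 := ⟨k - 1, by omega⟩
        rw [Nat.add_sub_cancel]
        refine le_of_eq ?_
        have h4 : (l + 1) * R + w = R + (l * R + w) := by ring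
        rw [h4, pow_add]
        ring
    have h3 : q ^ (R * k) * q ^ w = q ^ (k * R + w) := by
      rw [← pow_add]
      congr 1
      ring
    rw [h3]
    show _ ≤ (k + 1) * q ^ ((k + 1 - 1) * R + w)
    rw [Nat.add_sub_cancel, add_mul, one_mul]
    exact Nat.add_le_add_right h2 _

end Count

end Pool.Agent.W_52423f_h21
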