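import Pool.Agent.W_52423f_h70.EbMain
import Pool.Agent.W_52423f_h70.BrD
import Pool.Agent.W_52423f_h70.LgA

/-!
# The two inequalities for the logarithms of independent points

`m` independent points of `V(M)^N` in simple position, whose logarithms have `ℤ_p`-rank `r`:
`m N ≤ r (N + 2 m)` (points of `V^m`), and `m N ≤ r (m + 2 N)` if `O = ℤ` (points of `V^N`).
-/

set_option autoImplicit false

open scoped Classical

noncomputable section

namespace Pool.Agent.W_52423f_h21

open PCL Pool.Agent.PTwist WeierstrassCurve WeierstrassCurve.Affine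

variable {p : ℕ} [Fact p.Prime] {K : Type} [NontriviallyNormedField K] [CompleteSpace K]
  [IsUltrametricDist K] [IsAlgClosed K] [NormedAlgebra ℚ_[p] K]
  {M : Type} [Field M] [NumberField M] {V : WeierstrassCurve M} [V.IsElliptic]
  {O : Type} [CommRing O] [IsDomain O] [CharZero O] {ι : M →+* K} {N m r : ℕ} {ρ : ℝ}
  {L : AddSubgroup (Fin N → V.toAffine.Point)} {u : Fin m → Fin N → V.toAffine.Point}
  {c : Fin m → Fin r → ℤ_[p]} {ζ : Fin r → Fin N → K}

/-- The group `V^m`. -/
theorem ineq_tr (A : EndAct V O) (σ : O ≃+* O) (hσ : ∀ a, σ (σ a) = a)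
    (hfix : ∀ a, σ a = a → ∃ n : ℤ, a = n) (hL : SimplePos L) (hsym : ConjSym A σ L)
    (hu : ∀ j, u j ∈ L) (hind : ∀ t : Fin m → ℤ, ∑ j, t j • u j = 0 → t = 0)
    (hE : ExpData p V ι ρ u c ζ) (hrm : r ≤ m) : m * N ≤ r * (N + 2 * m) := by
  obtain ⟨ψ, θ, hθ, hψ, hψL⟩ := hsym
  rcases hrm.lt_or_eq with h | h
  · have hsim := EbMain_simple hL hu hind
    obtain ⟨h1, h2, h3⟩ := EbGal_main σ hσ hfix
    have hinj : Function.Injective (algebraMap O (FractionRing O)) :=
      IsFractionRing.injective _ _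
    have hconj : ∀ g : FractionRing O ≃ₐ[ℚ] FractionRing O,
        ConjStable (X := Pt V M) (A.act M) u g := by
      intro g
      rcases h3 g with h4 | h4
      · refine ⟨AddMonoidHom.id _, AddMonoidHom.id _, Function.injective_id, ?_, ?_⟩
        · intro a b hab x
          rw [h4] at hab
          rw [hinj hab]
          rfl
        · intro j s
          rfl
      · refine ⟨ψ, θ, hθ, ?_, ?_⟩
        · intro a b hab x
          rw [h4] at hab
          rw [← hinj hab]
          exact hψ a x
        · intro j s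
          exact hψL (u j) (hu j) s
    obtain ⟨C₀, hC₀, hBP⟩ := bp_van h hE (gam u) (fun s j => rfl)
    obtain ⟨c', hZE⟩ := zero_estimate_act m N
    have key : N * (m - r) ≤ 2 * r * m := by
      refine Nc_growth (c := c') (C₀ := C₀) fun v hv => ?_
      obtain ⟨P, hP, hdeg, hvan⟩ := hBP v hv
      exact hZE M V O (FractionRing O) A u hsim hconj (v ^ (m - r)) (C₀ * v ^ (2 * r)) P
        (Nat.mul_pos hC₀ (Nat.pow_pos hv)) hP hdeg hvan
    obtain ⟨k, rfl⟩ := Nat.exists_eq_add_of_lt h
    have h1 : r + k + 1 - r = k + 1 := by omega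
    rw [h1] at key
    nlinarith
  · subst h
    exact Nat.mul_le_mul_left _ (Nat.le_add_right _ _)

/-- The transposed points are in simple position. -/
theorem simple_tr (hL : SimplePos L) (hu : ∀ j, u j ∈ L)
    (hind : ∀ t : Fin m → ℤ, ∑ j, t j • u j = 0 → t = 0) {q : ℤ} (hq : q ≠ 0) :
    SimpleU (fun (i : Fin N) (j : Fin m) => (q • u j i : V.toAffine.Point)) := by
  have hsim := EbMain_simple hL hu hind
  intro s hs t ht
  by_contra ht0
  apply hs
  refine hsim t ht0 s ?_
  obtain ⟨n, hn, hn0⟩ := ht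
  refine ⟨n * q, mul_ne_zero hn hq, ?_⟩
  rw [← hn0, mul_smul]
  congr 1
  simp only [Finset.smul_sum]
  rw [Finset.sum_comm]
  refine Finset.sum_congr rfl fun i _ => Finset.sum_congr rfl fun j _ => ?_
  rw [smul_smul, smul_smul, smul_smul, smul_smul]
  congr 1
  ring

/-- The group `V^N`, if the curve has no complex multiplication. -/
theorem ineq_dir (A : EndAct V O) (hO : ∀ a : O, ∃ n : ℤ, a = n) (hL : SimplePos L)
    (hu : ∀ j, u j ∈ L) (hind : ∀ t : Fin m → ℤ, ∑ j, t j • u j = 0 → t = 0)
    (hE : ExpData p V ι ρ u c ζ) {I : Fin r → Fin m} {k : ℕ}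
    (hI : ∀ l l', c (I l) l' = if l = l' then (p : ℤ_[p]) ^ k else 0) :
    m * N ≤ r * (m + 2 * N) := by
  have hVK : (V.map ι).IsElliptic := inferInstance
  rcases le_or_gt N r with h | h
  · calc m * N ≤ m * r := Nat.mul_le_mul_left _ h
      _ = r * m := Nat.mul_comm _ _
      _ ≤ r * (m + 2 * N) := Nat.mul_le_mul_left _ (Nat.le_add_right _ _)
  · have hLC := hE.lc
    have hpp := (Fact.out : p.Prime)
    have hp1 : (1 : ℝ) < p := by exact_mod_cast hpp.one_lt
    have hrad1 : rad ρ ≤ 1 := by
      have h2 := hLC.two_le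
      unfold rad
      refine inv_le_one_of_one_le₀ ?_
      exact one_le_pow₀ (by linarith)
    -- the vectors `ζ` have coordinates in the algebra generated by the number field
    have hpK : (p : K) ≠ 0 := by
      have h1 : (p : K) = algebraMap ℚ_[p] K (p : ℚ_[p]) := (map_natCast _ p).symm
      rw [h1, Ne, map_eq_zero_iff _ (algebraMap ℚ_[p] K).injective]
      exact_mod_cast hpp.ne_zero
    have hmem : ∀ l i, ζ l i ∈ Algebra.adjoin ℚ_[p] (Set.range ι) := by
      intro l i
      have h1 := hE.pts (I l) i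
      have h2 : ∑ l', algebraMap ℚ_[p] K (c (I l) l' : ℚ_[p]) * ζ l' i =
          algebraMap ℚ_[p] K ((p : ℚ_[p]) ^ k) * ζ l i := by
        rw [Finset.sum_eq_single l]
        · rw [hI, if_pos rfl, PadicInt.coe_pow, PadicInt.coe_natCast]
        · intro l' _ hl
          rw [hI, if_neg (Ne.symm hl), PadicInt.coe_zero, map_zero, zero_mul]
        · intro hl
          exact absurd (Finset.mem_univ _) hl
      have h3 := hE.norm_le (I l) i
      have h4 := log_mem_adjoin (p := p) V ι hLC h3 h1
      rw [h2] at h4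
      have h5 : ζ l i = algebraMap ℚ_[p] K ((p : ℚ_[p]) ^ k)⁻¹ *
          (algebraMap ℚ_[p] K ((p : ℚ_[p]) ^ k) * ζ l i) := by
        rw [← mul_assoc, ← map_mul, inv_mul_cancel₀, map_one, one_mul]
        exact pow_ne_zero _ (by exact_mod_cast hpp.ne_zero)
      rw [h5]
      exact mul_mem (Subalgebra.algebraMap_mem _ _) h4
    -- a small multiple
    obtain ⟨e, he⟩ := pow_unbounded_of_one_lt (rad ρ)⁻¹ hp1
    have he' : ((p : ℝ) ^ e)⁻¹ ≤ rad ρ := by
      rw [inv_le_comm₀ (by positivity) hLC.rad_pos]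
      exact he.le
    obtain ⟨q, hq⟩ : ∃ q : ℤ, q = (p : ℤ) ^ e := ⟨_, rfl⟩
    have hq0 : q ≠ 0 := by
      rw [hq]
      exact pow_ne_zero _ (by exact_mod_cast hpp.ne_zero)
    let u' : Fin N → Fin m → V.toAffine.Point := fun i j => q • u j i
    let c' : Fin N → Fin r → K := fun i l => ζ l i
    let ζ' : Fin r → Fin m → K := fun l j => (q : K) * algebraMap ℚ_[p] K (c j l : ℚ_[p])
    have hqn : ‖(q : K)‖ ≤ rad ρ := by
      have h1 : (q : K) = algebraMap ℚ_[p] K ((p : ℚ_[p]) ^ e) := by
        rw [hq, map_pow, map_natCast]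
        push_cast
        rfl
      rw [h1, norm_algebraMap', norm_pow, Padic.norm_p, inv_pow]
      exact he'
    have hR : Rc.ExpDataR p V ι ρ u' c' ζ' :=
      { lc := hLC
        ball := by
          intro l j
          show ‖(q : K) * algebraMap ℚ_[p] K (c j l : ℚ_[p])‖ ≤ rad ρ
          rw [norm_mul, norm_algebraMap']
          have h1 : ‖(c j l : ℚ_[p])‖ ≤ 1 := (c j l).2
          calc ‖(q : K)‖ * ‖(c j l : ℚ_[p])‖ ≤ rad ρ * 1 :=
                mul_le_mul hqn h1 (norm_nonneg _) hLC.rad_pos.le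
            _ = rad ρ := mul_one _
        cmem := fun i l => hmem l i
        cle := fun i l => (hE.ball l i).trans hrad1
        pts := by
          intro i j
          have h1 : ∑ l, c' i l * ζ' l j =
              q • ∑ l, algebraMap ℚ_[p] K (c j l : ℚ_[p]) * ζ l i := by
            rw [zsmul_eq_mul, Finset.mul_sum]
            refine Finset.sum_congr rfl fun l _ => ?_
            show ζ l i * ((q : K) * algebraMap ℚ_[p] K (c j l : ℚ_[p])) = _
            ring
          rw [h1, expPt_zsmul (V.map ι) hLC (hE.norm_le j i), hE.pts j i, ← pmap_zsmul] }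
    have hsim : SimpleU u' := simple_tr hL hu hind hq0
    obtain ⟨h1, h2, h3⟩ := EbGal_main (RingEquiv.refl O) (fun _ => rfl) (fun a _ => hO a)
    have hinj : Function.Injective (algebraMap O (FractionRing O)) :=
      IsFractionRing.injective _ _
    have hconj : ∀ g : FractionRing O ≃ₐ[ℚ] FractionRing O,
        ConjStable (X := Pt V M) (A.act M) u' g := by
      intro g
      have h4 : ∀ a : O, g (algebraMap O _ a) = algebraMap O _ a := by
        rcases h3 g with h4 | h4 <;> exact h4
      refine ⟨AddMonoidHom.id _, AddMonoidHom.id _, Function.injective_id, ?_, ?_⟩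
      · intro a b hab x
        rw [h4] at hab
        rw [hinj hab]
        rfl
      · intro j s
        rfl
    obtain ⟨C₀, hC₀, hBP⟩ := Rc.bp_van h hR (gam u') (fun s j => rfl)
    obtain ⟨c'', hZE⟩ := zero_estimate_act N m
    have key : m * (N - r) ≤ 2 * r * N := by
      refine Nc_growth (c := c'') (C₀ := C₀) fun v hv => ?_
      obtain ⟨P, hP, hdeg, hvan⟩ := hBP v hv
      exact hZE M V O (FractionRing O) A u' hsim hconj (v ^ (N - r)) (C₀ * v ^ (2 * r)) P
        (Nat.mul_pos hC₀ (Nat.pow_pos hv)) hP hdeg hvan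
    obtain ⟨k', rfl⟩ := Nat.exists_eq_add_of_lt h
    have h1 : r + k' + 1 - r = k' + 1 := by omega
    rw [h1] at key
    nlinarith

end Pool.Agent.W_52423f_h21

end
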