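import Pool.Agent.W_52423f_h70.MainA

/-!
# The closure of the group generated by points with independent logarithms
-/

set_option autoImplicit false

open scoped Classical

noncomputable section

namespace Pool.Agent.W_52423f_h21

open PCL Pool.Agent.PTwist WeierstrassCurve WeierstrassCurve.Affine

variable {p : ℕ} [Fact p.Prime] {K : Type} [NontriviallyNormedField K] [CompleteSpace K]
  [IsUltrametricDist K] [IsAlgClosed K] [NormedAlgebra ℚ_[p] K]
  {M : Type} [Field M] [NumberField M] {V : WeierstrassCurve M} [V.IsElliptic]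
  {ι : M →+* K} {N m : ℕ} {ρ : ℝ}

/-- If the logarithms of the `Q P_i` are independent, then the closure of the group generated by the
`P_i` has rank `m`. -/
theorem hasRank_tuple (hLC : LC p (V.map ι).b₂ (V.map ι).b₄ (V.map ι).b₆ ρ) {Q : ℕ} (hQ : 0 < Q)
    {P : Fin m → Fin N → V.toAffine.Point} {z : Fin m → Fin N → K}
    (hz : ∀ i t, ‖z i t‖ ≤ rad ρ)
    (hP : ∀ i t, expPt (V.map ι) (z i t) = pmap V ι ((Q : ℤ) • P i t))
    (hli : LinearIndependent ℚ_[p] z) :
    HasRank (fun _ : Fin N => V.map ι) p m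
      (clos (fun _ : Fin N => V.map ι)
        ((fun P i => pmap V ι (P i)) '' (AddSubgroup.closure (Set.range P) :
          Set (Fin N → V.toAffine.Point)))) := by
  have : (V.map ι).IsElliptic := inferInstance
  have : ∀ _ : Fin N, (V.map ι).IsElliptic := fun _ => inferInstance
  let f : (Fin N → V.toAffine.Point) →+ (Fin N → (V.map ι).toAffine.Point) :=
    { toFun := fun P i => pmap V ι (P i)
      map_zero' := by
        funext t
        exact pmap_zero V ι
      map_add' := by
        intro P P'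
        funext t
        exact pmap_add V ι (P t) (P' t) }
  have hgen : ∀ j, P j ∈ AddSubgroup.closure (Set.range P) := fun j =>
    AddSubgroup.subset_closure (Set.mem_range_self j)
  have hspan : ∀ x ∈ AddSubgroup.closure (Set.range P), ∃ s : Fin m → ℤ, x = ∑ j, s j • P j := by
    intro x hx
    have h1 : x ∈ Submodule.span ℤ (Set.range P) := by
      rw [← Submodule.span_int_eq_addSubgroupClosure] at hx
      exact hx
    obtain ⟨s, hs⟩ := (Submodule.mem_span_range_iff_exists_fun ℤ).1 h1
    exact ⟨s, hs.symm⟩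
  have hQ' : (Q : ℤ) ≠ 0 := by exact_mod_cast hQ.ne'
  have hQ0 : (0 : ℤ) < Q := by exact_mod_cast hQ
  let A : Finset (Fin m → ℤ) := Fintype.piFinset fun _ => Finset.Ico (0 : ℤ) Q
  refine clos_hasRank' (fun _ : Fin N => V.map ι) (r₀ := fun _ => ρ)
    (z := z) (u := fun l => f ((Q : ℤ) • P l))
    (A := A.image fun s => f (∑ j, s j • P j))
    (fun _ => hLC) (fun l i => hz l i) ?_ ?_ ?_ ?_
  · intro a ha
    have h1 := Fintype.linearIndependent_iff.1 hli (fun l => (a l : ℚ_[p])) (by
      funext t
      rw [Finset.sum_apply]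
      rw [Pi.zero_apply, ← ha t]
      refine Finset.sum_congr rfl fun l _ => ?_
      rw [Pi.smul_apply, Algebra.smul_def])
    funext l
    have h2 : ((a l : ℤ_[p]) : ℚ_[p]) = ((0 : ℤ_[p]) : ℚ_[p]) := h1 l
    exact PadicInt.ext h2
  · intro l i
    exact hP l i
  · intro s
    refine ⟨∑ j, s j • ((Q : ℤ) • P j), ?_, ?_⟩
    · exact sum_mem fun j _ => zsmul_mem (zsmul_mem (hgen j) _) _
    · change f (∑ j, s j • ((Q : ℤ) • P j)) = _
      rw [map_sum]
      exact Finset.sum_congr rfl fun l _ => map_zsmul f _ _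
  · rintro x ⟨R, hR, rfl⟩
    obtain ⟨b, rfl⟩ := hspan R hR
    refine ⟨f (∑ j, (b j % Q) • P j), ?_, fun l => ((b l / Q : ℤ) : ℤ_[p]), ?_⟩
    · rw [Finset.mem_image]
      refine ⟨fun j => b j % Q, ?_, rfl⟩
      rw [Fintype.mem_piFinset]
      intro j
      rw [Finset.mem_Ico]
      exact ⟨Int.emod_nonneg _ hQ', Int.emod_lt_of_pos _ hQ0⟩
    · intro t
      change f (∑ j, b j • P j) t = f (∑ j, (b j % Q) • P j) t + _
      have h1 : ∑ j, b j • P j = ∑ j, (b j % Q) • P j + ∑ j, (b j / Q) • ((Q : ℤ) • P j) := by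
        rw [← Finset.sum_add_distrib]
        refine Finset.sum_congr rfl fun j _ => ?_
        rw [smul_smul, ← add_smul]
        congr 1
        have h2 := Int.mul_ediv_add_emod (b j) Q
        linarith
      rw [h1, map_add, Pi.add_apply]
      congr 1
      have h3 : ∑ l, algebraMap ℚ_[p] K ((((b l / Q : ℤ) : ℤ_[p])) : ℚ_[p]) * z l t =
          ∑ l, (b l / Q) • z l t := by
        refine Finset.sum_congr rfl fun l _ => ?_
        rw [PadicInt.coe_intCast, map_intCast, zsmul_eq_mul]
      rw [h3, expPt_sum (V.map ι) hLC Finset.univ _ _ fun j _ => hz j t, map_sum, Finset.sum_apply]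
      refine Finset.sum_congr rfl fun l _ => ?_
      rw [hP l t, map_zsmul, Pi.smul_apply]
      rfl

end Pool.Agent.W_52423f_h21

end
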