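import Pool.Agent.W_52423f_h21.Dir
import Pool.Agent.W_52423f_h21.Tup
import Pool.Agent.W_52423f_h21.CntL
import Pool.Agent.W_52423f_v9.LaD

/-!
# The closures of a subgroup and of almost all of its tuples
-/

set_option autoImplicit false

open scoped Classical

noncomputable section

namespace Pool.Agent.W_52423f_h21

open PCL Pool.Agent.PTwist WeierstrassCurve WeierstrassCurve.Affine Module
  Pool.Agent.W_52423f_h53

section

variable {p : ℕ} [Fact p.Prime] {K : Type} [Field K] [Algebra ℚ_[p] K] {m r N : ℕ}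

/-- Vectors independent over `ℤ_p` in a space of finite dimension. -/
theorem le_finrank {ζ : Fin r → Fin N → K}
    (hζ : ∀ a : Fin r → ℤ_[p], (∀ t, ∑ l, algebraMap ℚ_[p] K (a l : ℚ_[p]) * ζ l t = 0) → a = 0)
    (S : Submodule ℚ_[p] (Fin N → K)) [FiniteDimensional ℚ_[p] S] (hS : ∀ l, ζ l ∈ S) :
    r ≤ finrank ℚ_[p] S := by
  have h1 : LinearIndependent ℚ_[p] ζ := by
    rw [Fintype.linearIndependent_iff]
    intro b hb l
    have h2 := zeta_indep hζ b (by
      intro t
      have h3 := congrFun hb t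
      rw [Finset.sum_apply] at h3
      rw [Pi.zero_apply] at h3
      rw [← h3]
      refine Finset.sum_congr rfl fun l _ => ?_
      rw [Pi.smul_apply, Algebra.smul_def])
    exact congrFun h2 l
  have h2 : LinearIndependent ℚ_[p] (fun l => (⟨ζ l, hS l⟩ : S)) :=
    LinearIndependent.of_comp S.subtype h1
  have h3 := h2.fintype_card_le_finrank
  rwa [Fintype.card_fin] at h3

/-- The matrix of the coefficients contains a multiple of the identity. -/
theorem c_id {z : Fin m → Fin N → K} {k : ℕ} {I : Fin r → Fin m} {c : Fin m → Fin r → ℤ_[p]}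
    (hc : ∀ j t, (p : K) ^ k * z j t = ∑ l, algebraMap ℚ_[p] K (c j l : ℚ_[p]) * z (I l) t)
    (hcind : ∀ a : Fin r → ℤ_[p],
      (∀ t, ∑ l, algebraMap ℚ_[p] K (a l : ℚ_[p]) * z (I l) t = 0) → a = 0) (l l' : Fin r) :
    c (I l) l' = if l = l' then (p : ℤ_[p]) ^ k else 0 := by
  have h1 := hcind (fun l'' => c (I l) l'' - if l = l'' then (p : ℤ_[p]) ^ k else 0) (by
    intro i
    have h2 := hc (I l) i
    have h3 : ∀ l'', algebraMap ℚ_[p] K
        (((c (I l) l'' - if l = l'' then (p : ℤ_[p]) ^ k else 0 : ℤ_[p])) : ℚ_[p]) *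
        z (I l'') i = algebraMap ℚ_[p] K (c (I l) l'' : ℚ_[p]) * z (I l'') i -
        if l = l'' then (p : K) ^ k * z (I l) i else 0 := by
      intro l''
      rw [PadicInt.coe_sub, map_sub, sub_mul]
      congr 1
      split_ifs with h
      · subst h
        rw [PadicInt.coe_pow, PadicInt.coe_natCast, map_pow, map_natCast]
      · rw [PadicInt.coe_zero, map_zero, zero_mul]
    rw [Finset.sum_congr rfl fun l'' _ => h3 l'', Finset.sum_sub_distrib, ← h2]
    simp)
  exact sub_eq_zero.1 (congrFun h1 l')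

end

variable {p : ℕ} [Fact p.Prime] {K : Type} [NontriviallyNormedField K] [CompleteSpace K]
  [IsUltrametricDist K] [IsAlgClosed K] [NormedAlgebra ℚ_[p] K]
  {M : Type} [Field M] [NumberField M] {V : WeierstrassCurve M} [V.IsElliptic]
  {O : Type} [CommRing O] [IsDomain O] [CharZero O] {ι : M →+* K} {N m : ℕ} {ρ : ℝ}
  {L : AddSubgroup (Fin N → V.toAffine.Point)}

/-- The inequalities for independent points with logarithms in a space of finite dimension. -/
theorem ineq_logs (A : EndAct V O) (σ : O ≃+* O) (hσ : ∀ a, σ (σ a) = a)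
    (hfix : ∀ a, σ a = a → ∃ n : ℤ, a = n) (hL : SimplePos L) (hsym : ConjSym A σ L)
    (hLC : LC p (V.map ι).b₂ (V.map ι).b₄ (V.map ι).b₆ ρ) {s : ℕ}
    {v : Fin s → Fin N → V.toAffine.Point} (hv : ∀ i, v i ∈ L)
    (hind : ∀ t : Fin s → ℤ, ∑ i, t i • v i = 0 → t = 0) {z : Fin s → Fin N → K}
    (hz : ∀ i t, ‖z i t‖ ≤ rad ρ) (hzv : ∀ i t, expPt (V.map ι) (z i t) = pmap V ι (v i t))
    (S : Submodule ℚ_[p] (Fin N → K)) [FiniteDimensional ℚ_[p] S] (hS : ∀ i, z i ∈ S) :
    s * N ≤ finrank ℚ_[p] S * (N + 2 * s) ∧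
      ((∀ a : O, ∃ n : ℤ, a = n) → s * N ≤ finrank ℚ_[p] S * (s + 2 * N)) := by
  have : (V.map ι).IsElliptic := inferInstance
  obtain ⟨r, k, I, c, hrm, hc, hcind⟩ := exists_independent p z
  have hpz : ((p : ℤ) ^ k) ≠ 0 := by
    have hp := (Fact.out : p.Prime).ne_zero
    exact pow_ne_zero _ (by exact_mod_cast hp)
  have hrS : r ≤ finrank ℚ_[p] S := le_finrank hcind S fun l => hS (I l)
  have hI := c_id hc hcind
  have hE : ExpData p V ι ρ (fun j => ((p : ℤ) ^ k) • v j) c (fun l i => z (I l) i) := by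
    refine ⟨hLC, fun l i => hz (I l) i, ?_⟩
    intro j i
    rw [← hc j i]
    have h1 : (p : K) ^ k * z j i = ((p : ℤ) ^ k) • z j i := by
      rw [zsmul_eq_mul]
      push_cast
      rfl
    rw [h1, expPt_zsmul (V.map ι) hLC (hz j i), hzv j i, ← pmap_zsmul]
    rfl
  have hu : ∀ j, ((p : ℤ) ^ k) • v j ∈ L := fun j => zsmul_mem (hv j) _
  have hind' : ∀ t : Fin s → ℤ, ∑ j, t j • (((p : ℤ) ^ k) • v j) = 0 → t = 0 := by
    intro t ht
    have h1 := hind (fun j => t j * (p : ℤ) ^ k) (by
      rw [← ht]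
      exact Finset.sum_congr rfl fun j _ => mul_smul _ _ _)
    funext j
    have h2 := congrFun h1 j
    exact (mul_eq_zero.1 h2).resolve_right hpz
  refine ⟨?_, fun hO => ?_⟩
  · exact (ineq_tr A σ hσ hfix hL hsym hu hind' hE hrm).trans (Nat.mul_le_mul_right _ hrS)
  · exact (ineq_dir A hO hL hu hind' hE hI).trans (Nat.mul_le_mul_right _ hrS)

omit [IsAlgClosed K] [NumberField M] in
/-- The logarithms of integral combinations. -/
theorem comb_logs (hLC : LC p (V.map ι).b₂ (V.map ι).b₄ (V.map ι).b₆ ρ) {Q : ℕ}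
    {g : Fin m → Fin N → V.toAffine.Point} {y : Fin m → Fin N → K}
    (hy : ∀ i t, ‖y i t‖ ≤ rad ρ)
    (hyg : ∀ i t, expPt (V.map ι) (y i t) = pmap V ι ((Q : ℤ) • g i t)) (x : Fin m → ℤ) :
    (∀ t, ‖(∑ j, x j • y j) t‖ ≤ rad ρ) ∧
    ∀ t, expPt (V.map ι) ((∑ j, x j • y j) t) = pmap V ι ((Q : ℤ) • (∑ j, x j • g j) t) := by
  have : (V.map ι).IsElliptic := inferInstance
  have h0 : ∀ t, (∑ j, x j • y j) t = ∑ j, x j • y j t := by
    intro t
    rw [Finset.sum_apply]
    rfl
  refine ⟨fun t => ?_, fun t => ?_⟩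
  · rw [h0]
    refine IsUltrametricDist.norm_sum_le_of_forall_le_of_nonneg hLC.rad_pos.le fun l _ => ?_
    rw [zsmul_eq_mul, norm_mul]
    have h2 := IsUltrametricDist.norm_intCast_le_one K (x l)
    have h3 := norm_nonneg (y l t)
    have h4 := hy l t
    nlinarith
  · rw [h0, expPt_sum (V.map ι) hLC Finset.univ _ _ fun j _ => hy j t]
    have h1 : (Q : ℤ) • (∑ j, x j • g j) t = ∑ j, x j • ((Q : ℤ) • g j t) := by
      rw [Finset.sum_apply, Finset.smul_sum]
      refine Finset.sum_congr rfl fun j _ => ?_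
      rw [Pi.smul_apply, smul_comm]
    rw [h1, pmap_sum]
    exact Finset.sum_congr rfl fun j _ => by rw [hyg j t, pmap_zsmul V ι (x j)]

/-- The main theorem. -/
theorem main (A : EndAct V O) (σ : O ≃+* O) (hσ : ∀ a, σ (σ a) = a)
    (hfix : ∀ a, σ a = a → ∃ n : ℤ, a = n) (hL : SimplePos L) (hsym : ConjSym A σ L)
    (hfg : L.FG) (hm : finrank ℤ L = m) :
    ∃ r : ℕ, (∀ r' : ℕ, HasRank (fun _ : Fin N => V.map ι) p r'
        (clos (fun _ : Fin N => V.map ι)
          ((fun P i => pmap V ι (P i)) '' (L : Set (Fin N → V.toAffine.Point)))) ↔ r' = r) ∧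
      r ≤ m ∧ m * N ≤ r * (N + 2 * m) ∧
      ((∀ a : O, ∃ n : ℤ, a = n) → m * N ≤ r * (m + 2 * N)) ∧
      ∀ g : Fin m → Fin N → V.toAffine.Point, (∀ j, g j ∈ L) → LinearIndependent ℤ g →
        ∀ k w B : ℕ, ((k ≤ r ∧ w + 1 = m) ∨ (k - 1) * (N + 2 * (w + 1)) < (w + 1) * N ∨
          ((∀ a : O, ∃ n : ℤ, a = n) ∧ (k - 1) * (w + 1 + 2 * N) < (w + 1) * N)) →
        {x : Fin k → Fin m → ℤ | (∀ i j, |x i j| ≤ (B : ℤ)) ∧
          ¬ HasRank (fun _ : Fin N => V.map ι) p k
            (clos (fun _ : Fin N => V.map ι)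
              ((fun P i => pmap V ι (P i)) ''
                (AddSubgroup.closure (Set.range fun i => ∑ j, x i j • g j) :
                  Set (Fin N → V.toAffine.Point))))}.ncard ≤
          k * (2 * B + 1) ^ ((k - 1) * m + w) := by
  have : (V.map ι).IsElliptic := inferInstance
  obtain ⟨r, r₀, u, c, ζ, hrm, huL, hind, hE, hζ, ⟨I, e, hI⟩, hR⟩ :=
    exists_expData' (p := p) V ι L hfg hm
  refine ⟨r, fun r' => ⟨fun h => hasRank_unique _ h hR, fun h => h ▸ hR⟩, hrm,
    ineq_tr A σ hσ hfix hL hsym huL hind hE hrm,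
    fun hO => ineq_dir A hO hL huL hind hE hI, ?_⟩
  intro g hg hgi k w B hcond
  obtain ⟨r₁, Q, y', hQ, hLC, hy', hyg'⟩ := exists_logs (p := p) V ι (T := Fin m × Fin N)
    (fun t => g t.1 t.2)
  let y : Fin m → Fin N → K := fun j t => y' (j, t)
  have hy : ∀ i t, ‖y i t‖ ≤ rad r₁ := fun i t => hy' (i, t)
  have hyg : ∀ i t, expPt (V.map ι) (y i t) = pmap V ι ((Q : ℤ) • g i t) := fun i t => hyg' (i, t)
  have hcomb := fun x : Fin m → ℤ => comb_logs hLC hy hyg x
  have hQ' : (Q : ℤ) ≠ 0 := by exact_mod_cast hQ.ne'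
  have hgi' := Fintype.linearIndependent_iff.1 hgi
  have : CharZero K := Loc_charZero p K
  have : IsScalarTower ℚ ℚ_[p] (Fin N → K) := IsScalarTower.rat
  -- the rational combinations with values in a space
  have hWineq : ∀ S : Submodule ℚ_[p] (Fin N → K), FiniteDimensional ℚ_[p] S →
      finrank ℚ (Wsp y S) * N ≤ finrank ℚ_[p] S * (N + 2 * finrank ℚ (Wsp y S)) ∧
      ((∀ a : O, ∃ n : ℤ, a = n) →
        finrank ℚ (Wsp y S) * N ≤ finrank ℚ_[p] S * (finrank ℚ (Wsp y S) + 2 * N)) := by
    intro S hS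
    obtain ⟨x, hx, hxi⟩ := exists_int_basis (Wsp y S)
    refine ineq_logs A σ hσ hfix hL hsym hLC (v := fun i => (Q : ℤ) • ∑ j, x i j • g j)
      (z := fun i => ∑ j, x i j • y j) ?_ ?_ (fun i => (hcomb (x i)).1) (fun i => (hcomb (x i)).2)
      S ?_
    · exact fun i => zsmul_mem (sum_mem fun j _ => zsmul_mem (hg j) _) _
    · intro t ht
      have h1 : ∑ j, (∑ i, t i * Q * x i j) • g j = 0 := by
        rw [← ht]
        simp only [Finset.sum_smul, Finset.smul_sum, mul_smul]
        exact Finset.sum_comm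
      have h2 := hgi' _ h1
      have h3 := Fintype.linearIndependent_iff.1 hxi (fun i => t i * Q) (by
        funext j
        rw [Finset.sum_apply]
        exact h2 j)
      funext i
      exact (mul_eq_zero.1 (h3 i)).resolve_right hQ'
    · intro i
      have h1 := mem_Wsp.1 (hx i)
      convert h1 using 2 with j
      rw [Int.cast_smul_eq_zsmul]
  have hW : ∀ S : Submodule ℚ_[p] (Fin N → K), FiniteDimensional ℚ_[p] S →
      finrank ℚ_[p] S + 1 ≤ k → finrank ℚ (Wsp y S) ≤ w := by
    intro S hS hSk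
    obtain ⟨h1, h2⟩ := hWineq S hS
    have hk : finrank ℚ_[p] S ≤ k - 1 := by omega
    by_contra hlt
    obtain ⟨d, hd⟩ : ∃ d, finrank ℚ (Wsp y S) = w + 1 + d :=
      ⟨finrank ℚ (Wsp y S) - (w + 1), by omega⟩
    rcases hcond with ⟨hkr, hwm⟩ | hn | ⟨hO, hn⟩
    · -- all logarithms are in `S`
      have h3 : finrank ℚ (Wsp y S) ≤ m := by
        have := Submodule.finrank_le (Wsp y S)
        rwa [Module.finrank_fin_fun] at this
      have h4 : Wsp y S = ⊤ := by
        apply Submodule.eq_top_of_finrank_eq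
        rw [Module.finrank_fin_fun]
        omega
      have hyS : ∀ j, y j ∈ S := by
        intro j
        have h5 : (Pi.single j 1 : Fin m → ℚ) ∈ Wsp y S := by
          rw [h4]
          exact Submodule.mem_top
        have h6 := mem_Wsp.1 h5
        rw [Finset.sum_eq_single j] at h6
        · rwa [Pi.single_eq_same, one_smul] at h6
        · intro i _ hi
          rw [Pi.single_eq_of_ne hi, zero_smul]
        · intro h
          exact absurd (Finset.mem_univ _) h
      -- a common ball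
      obtain ⟨ρ, hρ, hb0, hb1⟩ : ∃ ρ, LC p (V.map ι).b₂ (V.map ι).b₄ (V.map ι).b₆ ρ ∧
          (∀ z : K, ‖z‖ ≤ rad r₀ → ‖z‖ ≤ rad ρ) ∧ (∀ z : K, ‖z‖ ≤ rad r₁ → ‖z‖ ≤ rad ρ) := by
        rcases le_total r₀ r₁ with h | h
        · refine ⟨r₀, hE.lc, fun z hz => hz, fun z hz => hz.trans ?_⟩
          have h5 := hE.lc.two_le
          unfold rad
          gcongr
        · refine ⟨r₁, hLC, fun z hz => hz.trans ?_, fun z hz => hz⟩
          have h5 := hLC.two_le
          unfold rad
          gcongr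
      have hLfin : Module.Finite ℤ L :=
        Module.Finite.iff_addGroup_fg.2 ((AddGroup.fg_iff_addSubgroup_fg L).2 hfg)
      -- the logarithms of the `u_j`
      have huS : ∀ j, (fun t => ∑ l, algebraMap ℚ_[p] K (c j l : ℚ_[p]) * ζ l t) ∈ S := by
        intro j
        obtain ⟨q, a, hq, hqa⟩ : ∃ (q : ℤ) (a : Fin m → ℤ), q ≠ 0 ∧
            q • u j = ∑ i, a i • g i := by
          have h5 : ¬ LinearIndependent ℤ
              (Fin.cons (⟨u j, huL j⟩ : L) (fun i => (⟨g i, hg i⟩ : L)) : Fin (m + 1) → L) := by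
            intro h6
            have h7 := h6.fintype_card_le_finrank
            rw [Fintype.card_fin, hm] at h7
            omega
          rw [Fintype.not_linearIndependent_iff] at h5
          obtain ⟨b, hb, i₀, hi₀⟩ := h5
          rw [Fin.sum_univ_succ] at hb
          simp only [Fin.cons_zero, Fin.cons_succ] at hb
          have hb' : b 0 • u j + ∑ i, b (Fin.succ i) • g i = 0 := by
            have h6 := congrArg (Subtype.val) hb
            push_cast at h6
            exact h6
          refine ⟨b 0, fun i => -b (Fin.succ i), ?_, ?_⟩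
          · intro h0
            rw [h0, zero_smul, zero_add] at hb'
            have h6 := hgi' _ hb'
            apply hi₀
            refine Fin.cases h0 (fun i => h6 i) i₀
          · rw [eq_neg_of_add_eq_zero_left hb', ← Finset.sum_neg_distrib]
            exact Finset.sum_congr rfl fun i _ => (neg_smul _ _).symm
        have hrel : ∀ t, ((q * Q : ℤ) : K) * ∑ l, algebraMap ℚ_[p] K (c j l : ℚ_[p]) * ζ l t =
            ∑ i, (a i : K) * y i t := by
          intro t
          have h5 := log_rel (ι := ι) hρ (P := fun _ : Fin 1 => u j t)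
            (Q := fun i : Fin m => (Q : ℤ) • g i t)
            (z := fun _ => ∑ l, algebraMap ℚ_[p] K (c j l : ℚ_[p]) * ζ l t)
            (w := fun i => y i t) (fun _ => hb0 _ (hE.norm_le j t)) (fun i => hb1 _ (hy i t))
            (fun _ => hE.pts j t) (fun i => hyg i t) (fun _ => q * Q) a (by
              rw [Fin.sum_univ_one]
              have h6 := congrFun hqa t
              rw [Pi.smul_apply, Finset.sum_apply] at h6
              rw [mul_comm, mul_smul, h6, Finset.smul_sum]
              refine Finset.sum_congr rfl fun i _ => ?_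
              rw [Pi.smul_apply, smul_comm])
          rw [Fin.sum_univ_one] at h5
          exact h5
        have hqQ : ((q * Q : ℤ) : ℚ_[p]) ≠ 0 := by
          exact_mod_cast mul_ne_zero hq hQ'
        have h5 : (fun t => ∑ l, algebraMap ℚ_[p] K (c j l : ℚ_[p]) * ζ l t) =
            ((q * Q : ℤ) : ℚ_[p])⁻¹ • ∑ i, (a i : ℚ_[p]) • y i := by
          rw [eq_inv_smul_iff₀ hqQ]
          funext t
          rw [Pi.smul_apply, Finset.sum_apply, Algebra.smul_def, map_intCast, hrel t]
          refine Finset.sum_congr rfl fun i _ => ?_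
          rw [Pi.smul_apply, Algebra.smul_def, map_intCast]
        rw [h5]
        exact S.smul_mem _ (sum_mem fun i _ => S.smul_mem _ (hyS i))
      have hζS : ∀ l, ζ l ∈ S := by
        intro l
        have h5 := huS (I l)
        have h6 : (fun t => ∑ l', algebraMap ℚ_[p] K (c (I l) l' : ℚ_[p]) * ζ l' t) =
            ((p : ℚ_[p]) ^ e) • ζ l := by
          funext t
          rw [Finset.sum_eq_single l]
          · rw [hI, if_pos rfl, PadicInt.coe_pow, PadicInt.coe_natCast, Pi.smul_apply,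
              Algebra.smul_def]
          · intro l' _ hl
            rw [hI, if_neg (Ne.symm hl), PadicInt.coe_zero, map_zero, zero_mul]
          · intro hl
            exact absurd (Finset.mem_univ _) hl
        rw [h6] at h5
        have h7 : ((p : ℚ_[p]) ^ e) ≠ 0 :=
          pow_ne_zero _ (by exact_mod_cast (Fact.out : p.Prime).ne_zero)
        exact (S.smul_mem_iff h7).1 h5
      have h5 := le_finrank hζ S hζS
      omega
    · rw [hd] at h1
      have h3 : finrank ℚ_[p] S * (N + 2 * (w + 1 + d)) ≤ (k - 1) * (N + 2 * (w + 1 + d)) :=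
        Nat.mul_le_mul_right _ hk
      have h4 : 2 * (k - 1) < N := by
        have h5 : (w + 1) * (2 * (k - 1)) < (w + 1) * N := by
          calc (w + 1) * (2 * (k - 1)) = (k - 1) * (2 * (w + 1)) := by ring
            _ ≤ (k - 1) * (N + 2 * (w + 1)) := Nat.mul_le_mul_left _ (Nat.le_add_left _ _)
            _ < (w + 1) * N := hn
        exact Nat.lt_of_mul_lt_mul_left h5
      have h5 : 2 * (k - 1) * d ≤ N * d := Nat.mul_le_mul_right _ h4.le
      nlinarith
    · have h2 := h2 hO
      rw [hd] at h2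
      have h3 : finrank ℚ_[p] S * (w + 1 + d + 2 * N) ≤ (k - 1) * (w + 1 + d + 2 * N) :=
        Nat.mul_le_mul_right _ hk
      have h4 : k - 1 < N := by
        have h5 : (w + 1) * (k - 1) < (w + 1) * N := by
          calc (w + 1) * (k - 1) = (k - 1) * (w + 1) := by ring
            _ ≤ (k - 1) * (w + 1 + 2 * N) := Nat.mul_le_mul_left _ (Nat.le_add_right _ _)
            _ < (w + 1) * N := hn
        exact Nat.lt_of_mul_lt_mul_left h5
      have h5 : (k - 1) * d ≤ N * d := Nat.mul_le_mul_right _ h4.le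
      nlinarith
  refine le_trans (Set.ncard_le_ncard ?_ ?_) (bad_ncard_lin (Ω := ℚ_[p]) y w B k hW)
  · rintro x ⟨hx, hx2⟩
    refine ⟨hx, fun hli => hx2 ?_⟩
    exact hasRank_tuple hLC hQ (z := fun i => ∑ j, x i j • y j) (fun i => (hcomb (x i)).1)
      (fun i => (hcomb (x i)).2) hli
  · have h2 : {x : Fin k → Fin m → ℤ | ∀ i j, |x i j| ≤ (B : ℤ)} =
        ((Fintype.piFinset fun _ : Fin k => Fintype.piFinset fun _ : Fin m =>
          Finset.Icc (-(B : ℤ)) B : Finset (Fin k → Fin m → ℤ)) : Set (Fin k → Fin m → ℤ)) := by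
      ext x
      rw [Set.mem_setOf_eq, Finset.mem_coe, Fintype.mem_piFinset]
      refine forall_congr' fun i => ?_
      rw [Fintype.mem_piFinset]
      refine forall_congr' fun j => ?_
      rw [Finset.mem_Icc, ← abs_le]
    refine Set.Finite.subset (s := {x : Fin k → Fin m → ℤ | ∀ i j, |x i j| ≤ (B : ℤ)}) ?_
      fun x hx => hx.1
    rw [h2]
    exact Finset.finite_toSet _

end Pool.Agent.W_52423f_h21

end
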