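import Pool.Agent.W_52423f_h21.Clo

/-! Exactly one class of exceptional planes. -/

set_option autoImplicit false
set_option linter.unusedSectionVars false

namespace Pool.Agent.W_52423f_h21

open Module TensorProduct Pool.Agent.W_52423f_h69

section

variable {Ω D V T : Type*} [Field Ω] [Algebra ℚ Ω] [DivisionRing D] [Algebra ℚ D]
  [FiniteDimensional ℚ D] [AddCommGroup V] [Module D V] [AddCommGroup T] [Module Ω T]
  [Module D T] [SMulCommClass Ω D T]

/-- The logarithms of a plane proportional to an exceptional plane are dependent. -/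
theorem dep_of_prop (log : V →ₗ[D] T) (v w : Fin 2 → V) (c : Ω) (hc : log (v 0) = c • log (v 1))
    (k : D) (g : Fin 2 → Fin 2 → ℚ) (hw : ∀ i, w i = k • ∑ j, (g i j : D) • v j) :
    ¬ LinearIndependent Ω fun i => log (w i) := by
  have hD := charZ D
  have hΩ := charZ Ω
  have hS : SMulCommClass D Ω T := SMulCommClass.symm _ _ _
  have h1 : ∀ i, log (w i) = ((g i 0 : Ω) * c + g i 1) • k • log (v 1) := by
    intro i
    rw [hw i, map_smul, map_sum, Fin.sum_univ_two, map_smul, map_smul, hc]
    have h2 : ∀ (q : ℚ) (t : T), (q : D) • t = (q : Ω) • t := fun q t =>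
      map_ratCast_smul (AddMonoidHom.id T) D Ω q t
    rw [h2, h2, ← mul_smul, ← add_smul, smul_comm]
  intro h
  rw [Fintype.linearIndependent_iff] at h
  have h3 := h ![(g 1 0 : Ω) * c + g 1 1, -((g 0 0 : Ω) * c + g 0 1)] (by
    rw [Fin.sum_univ_two]
    simp only [Matrix.cons_val_zero, Matrix.cons_val_one]
    rw [h1 0, h1 1, ← mul_smul, ← mul_smul, ← add_smul]
    convert zero_smul Ω (k • log (v 1)) using 2
    ring)
  have h4 : (g 1 0 : Ω) * c + g 1 1 = 0 := h3 0
  have h5 := h ![0, 1] (by
    rw [Fin.sum_univ_two]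
    simp only [Matrix.cons_val_zero, Matrix.cons_val_one]
    rw [h1 1, h4, zero_smul, zero_smul, smul_zero, add_zero]) 1
  exact one_ne_zero (α := Ω) h5

end

section

variable (p : ℕ) [Fact p.Prime] (D : Type*) [DivisionRing D] [Algebra ℚ D]
    [FiniteDimensional ℚ D] (V : Type*)
    [AddCommGroup V] [Module D V] (T : Type*) [AddCommGroup T] [Module ℚ_[p] T] [Module ℤ_[p] T]
    [IsScalarTower ℤ_[p] ℚ_[p] T] [Module D T] [SMulCommClass ℚ_[p] D T] [TopologicalSpace T]
    [IsTopologicalAddGroup T] [ContinuousSMul ℚ_[p] T] [T2Space T] (log : V →ₗ[D] T)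

/-- If the logarithms are dependent, the closure is not of full rank. -/
theorem closure_of_dep {m : ℕ} (v : Fin m → V) (h : ¬ LinearIndependent ℚ_[p] fun i => log (v i)) :
    ¬ ∃ H : Submodule ℤ_[p] T, (H : Set T) = closure (log '' (AddSubgroup.closure
        (Set.range v) : Set V)) ∧ Module.Finite ℤ_[p] H ∧ Module.Free ℤ_[p] H ∧
          finrank ℤ_[p] H = m := by
  rintro ⟨H, hH, -, -, hr⟩
  apply h
  obtain ⟨hfin, hfree, hrk⟩ := finrank_zp (p := p) (fun i => log (v i))
  have h1 : H = Submodule.span ℤ_[p] (Set.range fun i => log (v i)) := by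
    apply SetLike.coe_injective
    rw [hH, closure_zspan]
    congr 1
    have h2 : (AddSubgroup.closure (Set.range v) : Set V) = Submodule.span ℤ (Set.range v) := by
      rw [← Submodule.span_int_eq_addSubgroupClosure]
      rfl
    show log '' (AddSubgroup.closure (Set.range v) : Set V) = _
    rw [h2]
    have h3 : (Submodule.span ℤ (Set.range v)).map (log.restrictScalars ℤ) =
        Submodule.span ℤ (Set.range fun i => log (v i)) := by
      rw [Submodule.map_span]
      congr 1
      ext y
      simp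
    rw [← h3]
    rfl
  rw [h1, hrk] at hr
  rw [linearIndependent_iff_card_eq_finrank_span, Fintype.card_fin]
  exact hr.symm

/-- Exactly one class: if all lines over `D` are good and `v 0`, `v 1` are exceptional, then the
exceptional pairs in their `D`-span are those proportional over `D`, unless the ratio of the
logarithms of `v` is quadratic. -/
theorem exactly_one_class
    (hline : ∀ x : V, x ≠ 0 →
      finrank ℚ_[p] (Submodule.span ℚ_[p] (Set.range fun a : D => a • log x)) = finrank ℚ D)
    (v : Fin 2 → V) (hv : LinearIndependent ℤ v)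
    (hvd : ¬ ∃ H : Submodule ℤ_[p] T, (H : Set T) = closure (log '' (AddSubgroup.closure
        (Set.range v) : Set V)) ∧ Module.Finite ℤ_[p] H ∧ Module.Free ℤ_[p] H ∧
          finrank ℤ_[p] H = 2) :
    (∃ c : ℚ_[p], (∃ α β γ : ℚ, α ≠ 0 ∧ (α : ℚ_[p]) * c ^ 2 + β * c + γ = 0) ∧
        (∀ q : ℚ, c ≠ q) ∧ log (v 0) = c • log (v 1)) ∨
      ∀ w : Fin 2 → V, LinearIndependent ℤ w → (∀ i, w i ∈ Submodule.span D (Set.range v)) →
        ((¬ ∃ H : Submodule ℤ_[p] T, (H : Set T) = closure (log '' (AddSubgroup.closure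
            (Set.range w) : Set V)) ∧ Module.Finite ℤ_[p] H ∧ Module.Free ℤ_[p] H ∧
              finrank ℤ_[p] H = 2) ↔
          ∃ (k : D) (g : Fin 2 → Fin 2 → ℚ), ∀ i, w i = k • ∑ j, (g i j : D) • v j) := by
  by_cases hq : ∃ c : ℚ_[p], (∃ α β γ : ℚ, α ≠ 0 ∧ (α : ℚ_[p]) * c ^ 2 + β * c + γ = 0) ∧
        (∀ q : ℚ, c ≠ q) ∧ log (v 0) = c • log (v 1)
  · exact Or.inl hq
  refine Or.inr fun w hw hwv => ⟨fun hwd => ?_, fun ⟨k, g, hg⟩ => ?_⟩
  · exact (one_class_closure p D V T log hline v w hv hw hwv hvd hwd).resolve_right hq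
  · have h0 : ∀ x : V, log x = 0 → x = 0 := by
      intro x hx
      by_contra hx0
      have h1 := hline x hx0
      have h2 := good_basis (log x) h1
      have h3 : 0 < finrank ℚ D := finrank_pos
      exact h2.ne_zero ⟨0, h3⟩ (by rw [hx, smul_zero])
    obtain ⟨c, hc, -⟩ := ratio (Ω := ℚ_[p]) log h0 v hv (dep_of_closure p D V T log v hvd)
    exact closure_of_dep p D V T log w (dep_of_prop log v w c hc k g hg)

end

end Pool.Agent.W_52423f_h21
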