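import Pool.Agent.W_52423f_h53.AA
import Pool.Agent.W_52423f_h21.Iff

/-! Lines over a number field. -/

set_option autoImplicit false
set_option linter.unusedSectionVars false

namespace Pool.Agent.W_52423f_h21

open Module TensorProduct Pool.Agent.W_52423f_h69

section

variable (p : ℕ) [Fact p.Prime] (K : Type*) [Field K] [NumberField K] (V : Type*)
    [AddCommGroup V] [Module K V] (T : Type*) [AddCommGroup T] [Module ℚ_[p] T] [Module ℤ_[p] T]
    [IsScalarTower ℤ_[p] ℚ_[p] T] [Module K T] [SMulCommClass ℚ_[p] K T] [TopologicalSpace T]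
    [IsTopologicalAddGroup T] [ContinuousSMul ℚ_[p] T] [T2Space T] (log : V →ₗ[K] T)

/-- Under one of the two hypotheses for `V`, all lines are good. -/
theorem line_of
    (h : (IsField (ℚ_[p] ⊗[ℚ] K) ∧ ∀ x : V, log x = 0 → x = 0) ∨
      ∀ (n : ℕ) (v : Fin n → V), LinearIndependent ℤ v →
        ∀ a : Fin n → AlgebraicClosure ℚ_[p], (∀ i, IsAlgebraic ℚ (a i)) →
          ∑ i, a i ⊗ₜ[ℚ_[p]] log (v i) = 0 → a = 0) (x : V) (hx : x ≠ 0) :
    finrank ℚ_[p] (Submodule.span ℚ_[p] (Set.range fun a : K => a • log x)) = finrank ℚ K := by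
  classical
  let κ := finBasis ℚ K
  let v : Fin (finrank ℚ K) → V := fun j => κ j • x
  have hv : LinearIndependent ℤ v := by
    rw [Fintype.linearIndependent_iff]
    intro c hc
    have h1 : (∑ j, (c j : K) * κ j) • x = 0 := by
      rw [← hc, Finset.sum_smul]
      refine Finset.sum_congr rfl fun j _ => ?_
      rw [mul_smul, Int.cast_smul_eq_zsmul]
    have h2 : ∑ j, (c j : K) * κ j = 0 := (smul_eq_zero.1 h1).resolve_right hx
    have h3 := Fintype.linearIndependent_iff.1 κ.linearIndependent (fun j => (c j : ℚ)) (by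
      rw [← h2]
      refine Finset.sum_congr rfl fun j _ => ?_
      rw [Algebra.smul_def]
      simp)
    intro j
    exact_mod_cast h3 j
  have h1 := Pool.Agent.W_52423f_h53.main_v p K V T log ⊤
    (by
      rcases h with ⟨h1, h2⟩ | h2
      · exact Or.inl ⟨h1, fun x _ => h2 x⟩
      · exact Or.inr fun n v _ => h2 n v) v (fun _ => trivial) hv
  have h2 : finrank K (Submodule.span K (Set.range fun i => log (v i))) ≤ 1 := by
    have h3 : Submodule.span K (Set.range fun i => log (v i)) ≤ Submodule.span K {log x} := by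
      rw [Submodule.span_le]
      rintro _ ⟨i, rfl⟩
      show log (κ i • x) ∈ _
      rw [map_smul]
      exact Submodule.smul_mem _ _ (Submodule.mem_span_singleton_self _)
    exact (Submodule.finrank_mono h3).trans ((finrank_span_le_card _).trans (by simp))
  have h4 : Submodule.span ℚ_[p] (Set.range fun a : K => a • log x) =
      Submodule.span ℚ_[p] (Set.range fun i => log (v i)) := by
    apply le_antisymm
    · rw [Submodule.span_le]
      rintro _ ⟨a, rfl⟩
      have h2 : a • log x = ∑ j, ((κ.repr a j : ℚ) : ℚ_[p]) • log (v j) := by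
        conv_lhs => rw [← κ.sum_repr a, Finset.sum_smul]
        refine Finset.sum_congr rfl fun j _ => ?_
        rw [Algebra.smul_def, mul_smul, eq_ratCast]
        have h5 : log (v j) = κ j • log x := map_smul _ _ _
        rw [h5]
        exact map_ratCast_smul (AddMonoidHom.id T) K ℚ_[p] _ _
      show a • log x ∈ _
      rw [h2]
      exact Submodule.sum_mem _ fun j _ => Submodule.smul_mem _ _ (Submodule.subset_span ⟨j, rfl⟩)
    · rw [Submodule.span_le]
      rintro _ ⟨j, rfl⟩
      refine Submodule.subset_span ⟨κ j, ?_⟩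
      show _ = log (κ j • x)
      rw [map_smul]
  rw [h4]
  refine le_antisymm ?_ ?_
  · have h5 := finrank_range_le_card (R := ℚ_[p]) (fun i => log (v i))
    rw [Fintype.card_fin] at h5
    exact h5
  · calc finrank ℚ K ≤ _ := h1
      _ ≤ finrank ℚ_[p] (Submodule.span ℚ_[p] (Set.range fun i => log (v i))) * 1 :=
        Nat.mul_le_mul_left _ h2
      _ = _ := mul_one _

end

end Pool.Agent.W_52423f_h21
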