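import Mathlib

/-! At most one class of exceptional planes. -/

set_option autoImplicit false

namespace Pool.Agent.W_52423f_h21

open Module

/-- Moebius functions with rational coefficients which agree at a number that is not of degree at
most two over `ℚ`. -/
theorem moebius {Ω ι : Type*} [Field Ω] [CharZero Ω] (c c' : Ω)
    (hc : ∀ α β γ : ℚ, (α : Ω) * c ^ 2 + β * c + γ = 0 → α = 0 ∧ β = 0 ∧ γ = 0)
    (hc' : ∀ q : ℚ, c' ≠ q) (a1 b1 a2 b2 : ι → ℚ)
    (h : ∀ j, (a1 j : Ω) * c + b1 j = c' * (a2 j * c + b2 j)) :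
    ∃ (α β γ δ : ℚ) (k : ι → ℚ), ∀ j, a1 j = k j * α ∧ b1 j = k j * β ∧ a2 j = k j * γ ∧
      b2 j = k j * δ := by
  by_cases h0 : ∀ j, a1 j = 0 ∧ b1 j = 0 ∧ a2 j = 0 ∧ b2 j = 0
  · refine ⟨0, 0, 0, 0, fun _ => 0, fun j => ?_⟩
    obtain ⟨h1, h2, h3, h4⟩ := h0 j
    simp [h1, h2, h3, h4]
  push Not at h0
  obtain ⟨i, hi⟩ := h0
  have hlin : ∀ β γ : ℚ, (β : Ω) * c + γ = 0 → β = 0 ∧ γ = 0 := by
    intro β γ hb
    have h1 := hc 0 β γ (by rw [← hb]; push_cast; ring)
    exact ⟨h1.2.1, h1.2.2⟩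
  have hΔ : a1 i * b2 i - b1 i * a2 i ≠ 0 := by
    intro hΔ
    by_cases h2 : a2 i = 0 ∧ b2 i = 0
    · have h3 := h i
      rw [h2.1, h2.2] at h3
      have h4 := hlin (a1 i) (b1 i) (by rw [h3]; simp)
      exact hi h4.1 h4.2 h2.1 h2.2
    · have hden : (a2 i : Ω) * c + b2 i ≠ 0 := fun hd => h2 (hlin _ _ hd)
      have hΔ' : (a1 i : Ω) * b2 i - b1 i * a2 i = 0 := by exact_mod_cast congrArg (Rat.cast (K := Ω)) hΔ
      by_cases h5 : a2 i = 0
      · have h6 : b2 i ≠ 0 := fun h6 => h2 ⟨h5, h6⟩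
        have h7 : a1 i = 0 := by
          rw [h5, mul_zero, sub_zero] at hΔ
          exact (mul_eq_zero.1 hΔ).resolve_right h6
        refine hc' (b1 i / b2 i) ?_
        have h8 := h i
        rw [h5, h7] at h8
        have h9 : (b2 i : Ω) ≠ 0 := by exact_mod_cast h6
        push_cast
        rw [eq_div_iff h9]
        simpa using h8.symm
      · refine hc' (a1 i / a2 i) ?_
        have h9 : (a2 i : Ω) ≠ 0 := by exact_mod_cast h5
        push_cast
        rw [eq_div_iff h9]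
        have h8 := h i
        apply mul_right_cancel₀ hden
        linear_combination (-(a2 i : Ω)) * h8 - hΔ'
  have hq : ∀ j, a1 j * a2 i - a2 j * a1 i = 0 ∧
      a1 j * b2 i + b1 j * a2 i - a2 j * b1 i - b2 j * a1 i = 0 ∧
      b1 j * b2 i - b2 j * b1 i = 0 := by
    intro j
    refine hc _ _ _ ?_
    push_cast
    linear_combination ((a2 i : Ω) * c + b2 i) * h j - ((a2 j : Ω) * c + b2 j) * h i
  refine ⟨a1 i, b1 i, a2 i, b2 i,
    fun j => (a1 j * b2 i - a2 j * b1 i) / (a1 i * b2 i - b1 i * a2 i), fun j => ?_⟩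
  obtain ⟨e1, e2, e3⟩ := hq j
  refine ⟨?_, ?_, ?_, ?_⟩ <;> rw [div_mul_eq_mul_div, eq_div_iff hΔ]
  · linear_combination (-b1 i) * e1
  · linear_combination (-b1 i) * e2 + a1 i * e3
  · linear_combination (-b2 i) * e1
  · linear_combination (-b2 i) * e2 + a2 i * e3

section

variable {Ω D V T : Type*} [Field Ω] [CharZero Ω] [DivisionRing D] [CharZero D] [AddCommGroup V]
  [Module D V] [AddCommGroup T] [Module Ω T] [Module D T] [SMulCommClass Ω D T]

/-- Let `μ = log l₂` generate a good line: the `κ j • μ`, for a basis `κ` of `D` over `ℚ`, are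
independent over `Ω`. Two planes in `D l₁ + D l₂` whose logarithms are proportional over `Ω` are
proportional over `D`, if the ratio is not of degree at most two. -/
theorem one {ι : Type*} [Fintype ι] (κ : ι → D) (log : V →ₗ[D] T) (l1 l2 : V)
    (κrep : D → ι → ℚ) (hκ : ∀ x, x = ∑ j, (κrep x j : D) * κ j)
    (hgood : LinearIndependent Ω fun j => κ j • log l2)
    (c c' : Ω) (hc : ∀ α β γ : ℚ, (α : Ω) * c ^ 2 + β * c + γ = 0 → α = 0 ∧ β = 0 ∧ γ = 0)
    (hc' : ∀ q : ℚ, c' ≠ q) (h1 : log l1 = c • log l2) (a1 b1 a2 b2 : D)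
    (h2 : log (a1 • l1 + b1 • l2) = c' • log (a2 • l1 + b2 • l2)) :
    ∃ (α β γ δ : ℚ) (k : D), a1 = k * α ∧ b1 = k * β ∧ a2 = k * γ ∧ b2 = k * δ := by
  have : SMulCommClass D Ω T := SMulCommClass.symm _ _ _
  have hs : ∀ (x : D) (t : T), x • t = ∑ j, (κrep x j : Ω) • κ j • t := by
    intro x t
    conv_lhs => rw [hκ x, Finset.sum_smul]
    refine Finset.sum_congr rfl fun j _ => ?_
    rw [mul_smul]
    exact map_ratCast_smul (AddMonoidHom.id T) D Ω (κrep x j) (κ j • t)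
  have h3 : ∀ a b : D, log (a • l1 + b • l2) =
      ∑ j, ((κrep a j : Ω) * c + κrep b j) • κ j • log l2 := by
    intro a b
    rw [map_add, map_smul, map_smul, h1, smul_comm, hs a, hs b, Finset.smul_sum,
      ← Finset.sum_add_distrib]
    refine Finset.sum_congr rfl fun j _ => ?_
    rw [add_smul, mul_comm, mul_smul]
  have h4 : ∀ j, (κrep a1 j : Ω) * c + κrep b1 j = c' * (κrep a2 j * c + κrep b2 j) := by
    intro j
    have h5 := Fintype.linearIndependent_iff.1 hgood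
      (fun j => (κrep a1 j : Ω) * c + κrep b1 j - c' * (κrep a2 j * c + κrep b2 j)) ?_ j
    · exact sub_eq_zero.1 h5
    · simp only [sub_smul, Finset.sum_sub_distrib]
      rw [← h3, h2, h3, Finset.smul_sum, sub_eq_zero]
      refine Finset.sum_congr rfl fun j _ => ?_
      rw [mul_smul]
  obtain ⟨α, β, γ, δ, k, hk⟩ := moebius c c' hc hc' _ _ _ _ h4
  have h6 : ∀ (x : D) (q : ℚ), (∀ j, κrep x j = k j * q) → x = (∑ j, (k j : D) * κ j) * q := by
    intro x q hx
    rw [hκ x, Finset.sum_mul]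
    refine Finset.sum_congr rfl fun j _ => ?_
    rw [hx j, Rat.cast_mul, mul_assoc, (Rat.cast_commute q (κ j)).eq, ← mul_assoc]
  exact ⟨α, β, γ, δ, ∑ j, (k j : D) * κ j, h6 _ _ fun j => (hk j).1, h6 _ _ fun j => (hk j).2.1,
    h6 _ _ fun j => (hk j).2.2.1, h6 _ _ fun j => (hk j).2.2.2⟩

end

end Pool.Agent.W_52423f_h21
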